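import Mathlib
import Pool.Agent.N315.PS.SubD

/-!
# The distribution of the gap from a square to the next prime in all sieved sequential models

The integers are decided one after the other; the multiples of the primes of a finite set `Q` are never chosen and
the conditional probability of choosing an integer `n + 1` which is not such a multiple, given the decisions up to
`n`, is asymptotic to `∏_{p ∈ Q} (1 - 1 / p)⁻¹ / log n`, almost surely.  Nothing else is assumed: no independence and
no rate of convergence.  For `Q = ∅` the independent model of Cramér and the random sieve of Hawkins are examples.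

Let `a(n)` be the distance from `n ²` to the next chosen integer.  Almost surely, `a(n) / (2 log n)` has asymptotically
the exponential distribution with mean one (the proportion of the `n < N` with `a(n) > 2 λ log n` tends to `exp (-λ)`),
and the number of chosen integers in `(n ², n ² + 2 λ log n]` follows the Poisson law with parameter `λ`.

In general let `x_0 < x_1 < ...` be ANY sequence of integers.  Almost surely, for ALL finite systems `P` of integer
polynomials of positive degree and positive leading coefficient without a fixed divisor in `Q` such that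
`(x_(n+1) - x_n) / log ^ |P| x_n → ∞`, the number of the patterns `m` (all `f(m)`, `f ∈ P`, chosen) in
`(x_n, x_n + (λ / c) log ^ |P| x_n]` follows the Poisson law with parameter `λ` (squares, powers of two, squares of
primes, twin primes just above these numbers, ...). Here `c` is the truncated constant of Bateman and Horn.

Proof. The values are tried in their order.  The candidates (the places where the largest value is tried) are
counted, in most of the windows of the sequence, by a concentration inequality. The conditional probability of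
exactly `r` successes is bounded from above by the exact limit, and an exponential inequality for windows which do
not overlap gives the upper frequencies of all `r`, almost surely; as the limits have the sum one, these are the
frequencies.
-/

set_option autoImplicit false

open MeasureTheory Filter Set ProbabilityTheory Polynomial
open scoped Topology

namespace Pool.Agent.Results.MP_36c81c_nt.GapDistribution

variable {Ω : Type}

/-- `A n` is the event that `n` is chosen; adapted to `ℱ`; multiples of the primes in `Q` are not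
chosen; the conditional probability of `A (n + 1)` given `ℱ n`, times `log n`, tends almost surely to
`∏_{p ∈ Q} (1 - 1 / p)⁻¹` along the `n` such that no `p ∈ Q` divides `n + 1` -/
def SievedModel [m : MeasurableSpace Ω] (μ : Measure Ω) (ℱ : Filtration ℕ m)
    (A : ℕ → Set Ω) (Q : Finset ℕ) : Prop :=
  (∀ n, MeasurableSet[ℱ n] (A n)) ∧ (∀ n, (∃ p ∈ Q, p ∣ n) → A n = ∅) ∧
  ∀ᵐ ω ∂μ, Tendsto (fun n : ℕ => (μ[(A (n + 1)).indicator (fun _ => (1 : ℝ)) | ℱ n]) ω * Real.log n)
    (atTop ⊓ 𝓟 {n : ℕ | ∀ p ∈ Q, ¬ p ∣ n + 1}) (𝓝 (∏ p ∈ Q, (1 - 1 / (p : ℝ))⁻¹))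

/-- The model of Cramér: independent events, `n` is chosen with probability `1 / log n` for `n ≥ 3`. -/
def CramerModel [MeasurableSpace Ω] (μ : Measure Ω) (A : ℕ → Set Ω) : Prop :=
  (∀ n, MeasurableSet (A n)) ∧ iIndepSet A μ ∧ ∀ n : ℕ, 3 ≤ n → μ (A n) = ENNReal.ofReal (1 / Real.log n)

open Classical in
/-- The random sieve of Hawkins: `2` is chosen, and given the decisions up to `n ≥ 2` the number
`n + 1` is chosen with probability `∏ (1 - 1 / h)`, the product over the chosen `2 ≤ h ≤ n`. -/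
def HawkinsSieve [m : MeasurableSpace Ω] (μ : Measure Ω) (ℱ : Filtration ℕ m) (A : ℕ → Set Ω) : Prop :=
  (∀ n, MeasurableSet[ℱ n] (A n)) ∧ A 2 = univ ∧
  ∀ n, 2 ≤ n → μ[(A (n + 1)).indicator (fun _ => (1 : ℝ)) | ℱ n] =ᵐ[μ]
    fun ω => ∏ h ∈ Finset.Icc 2 n, if ω ∈ A h then 1 - 1 / (h : ℝ) else 1

/-- the distance from `n ²` to the least element of `S` greater than `n ²` -/
noncomputable def a (S : Set ℕ) (n : ℕ) : ℕ := sInf {q | q ∈ S ∧ n ^ 2 < q} - n ^ 2

/-- the `n` such that all values `f(n)`, `f ∈ P`, are elements of `S` -/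
def values (S : Set ℕ) (P : Finset ℤ[X]) : Set ℕ := {n | ∀ f ∈ P, ∃ a ∈ S, (a : ℤ) = f.eval (n : ℤ)}

/-- the number of the residues `r` modulo `p` such that `p` divides the product of the `f(r)`, `f ∈ P` -/
noncomputable def zeros (P : Finset ℤ[X]) (p : ℕ) : ℕ :=
  {r : ℕ | r < p ∧ (p : ℤ) ∣ ∏ f ∈ P, f.eval (r : ℤ)}.ncard

/-- the constant of Bateman and Horn, truncated to the primes of `Q` -/
noncomputable def const (Q : Finset ℕ) (P : Finset ℤ[X]) : ℝ :=
  (∏ p ∈ Q, (1 - (zeros P p : ℝ) / p) / (1 - 1 / (p : ℝ)) ^ P.card) * ∏ f ∈ P, ((f.natDegree : ℝ))⁻¹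

/-- the number of the elements of `M` in `(x, x + y]` -/
noncomputable def window (M : Set ℕ) (x : ℕ) (y : ℝ) : ℕ := {q : ℕ | q ∈ M ∧ x < q ∧ (q : ℝ) ≤ x + y}.ncard

/-- the proportion of the `n < N` with the property `B` tends to `q` -/
def Proportion (B : ℕ → Prop) (q : ℝ) : Prop :=
  Tendsto (fun N : ℕ => ({n : ℕ | n < N ∧ B n}.ncard : ℝ) / N) atTop (𝓝 q)

open Pool.Agent.N740.HK Pool.Agent.R528.RM Pool.Agent.N315.CC Pool.Agent.N315.PL Pool.Agent.N315.PS

lemma prod_inv (A : ℕ → Set Ω) (n : ℕ) (ω : Ω) [DecidablePred fun h => ω ∈ A h] :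
    (∏ h ∈ Finset.Icc 2 n, if ω ∈ A h then 1 - 1 / (h : ℝ) else 1) = (Y A n ω)⁻¹ := by
  unfold Y
  rw [← Finset.prod_inv_distrib]
  refine Finset.prod_congr rfl fun h hh => ?_
  have h2 : (2 : ℝ) ≤ h := by exact_mod_cast (Finset.mem_Icc.1 hh).1
  by_cases hA : ω ∈ A h
  · rw [if_pos hA, if_pos hA, inv_div]
    field_simp
  · rw [if_neg hA, if_neg hA, inv_one]

lemma log_ratio : Tendsto (fun n : ℕ => (Real.log ((n + 1 : ℕ) : ℝ))⁻¹ * Real.log n) atTop (𝓝 1) := by
  have h1 : Tendsto (fun n : ℕ => Real.log ((n : ℝ) + 1) - Real.log n) atTop (𝓝 0) := by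
    have h1 : Tendsto (fun n : ℕ => 1 + (1 : ℝ) / n) atTop (𝓝 (1 + 0)) :=
      tendsto_const_nhds.add tendsto_one_div_atTop_nhds_zero_nat
    rw [add_zero] at h1
    have h2 := (Real.continuousAt_log (one_ne_zero)).tendsto.comp h1
    rw [Real.log_one] at h2
    refine h2.congr' ?_
    filter_upwards [eventually_gt_atTop 0] with n hn
    have hn' : (0 : ℝ) < n := by exact_mod_cast hn
    show Real.log (1 + 1 / (n : ℝ)) = _
    rw [← Real.log_div (by positivity) hn'.ne']
    congr 1
    field_simp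
  have h2 : Tendsto (fun n : ℕ => Real.log ((n : ℝ) + 1)) atTop atTop :=
    Real.tendsto_log_atTop.comp (tendsto_atTop_add_const_right _ _ tendsto_natCast_atTop_atTop)
  have h3 := h1.div_atTop h2
  have h4 : Tendsto (fun n : ℕ => 1 - (Real.log ((n : ℝ) + 1) - Real.log n) / Real.log ((n : ℝ) + 1)) atTop (𝓝 (1 - 0)) :=
    tendsto_const_nhds.sub h3
  rw [sub_zero] at h4
  refine h4.congr' ?_
  filter_upwards [h2.eventually_gt_atTop 0] with n hn
  push_cast
  field_simp
  ring

lemma sieved_of_seq [m : MeasurableSpace Ω] {μ : Measure Ω} {ℱ : Filtration ℕ m} {A : ℕ → Set Ω}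
    (h1 : ∀ n, MeasurableSet[ℱ n] (A n))
    (h2 : ∀ᵐ ω ∂μ, Tendsto (fun n : ℕ => (μ[(A (n + 1)).indicator (fun _ => (1 : ℝ)) | ℱ n]) ω * Real.log n) atTop (𝓝 1)) :
    SievedModel μ ℱ A ∅ := by
  refine ⟨h1, fun n hn => ?_, ?_⟩
  · obtain ⟨p, hp, _⟩ := hn
    exact absurd hp (Finset.notMem_empty p)
  · filter_upwards [h2] with ω hω
    rw [Finset.prod_empty]
    exact hω.mono_left inf_le_left

lemma const_eq (Q : Finset ℕ) (P : Finset ℤ[X]) : bc Q P = const Q P := rfl

lemma zeros_lt (P : Finset ℤ[X]) {p : ℕ} (hp : p.Prime) {r : ℤ} (hr : ¬ (p : ℤ) ∣ ∏ f ∈ P, f.eval r) : zeros P p < p := by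
  classical
  have h0 : zeros P p = ((Finset.range p).filter (fun r : ℕ => (p : ℤ) ∣ ∏ f ∈ P, f.eval (r : ℤ))).card := by
    unfold zeros
    rw [← Set.ncard_coe_finset]
    congr 1
    ext r
    simp
  rw [h0]
  have hp0 : (0 : ℤ) < p := by exact_mod_cast hp.pos
  have h1 : (Finset.range p).filter (fun r : ℕ => (p : ℤ) ∣ ∏ f ∈ P, f.eval (r : ℤ)) ⊂ Finset.range p := by
    have e1 : 0 ≤ r % p := Int.emod_nonneg _ hp0.ne'
    have e2 : r % p < p := Int.emod_lt_of_pos _ hp0
    refine Finset.filter_ssubset.2 ⟨(r % p).toNat, Finset.mem_range.2 (by omega), ?_⟩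
    rw [Int.toNat_of_nonneg e1]
    intro hd
    apply hr
    have e3 : ∀ z : ℤ, ∏ f ∈ P, f.eval z = (∏ f ∈ P, f).eval z := fun z => (eval_prod P (fun f => f) z).symm
    rw [e3] at hd ⊢
    have h3 : (p : ℤ) ∣ (∏ f ∈ P, f).eval r - (∏ f ∈ P, f).eval (r % p) :=
      dvd_trans Int.dvd_self_sub_emod (Polynomial.sub_dvd_eval_sub r (r % p) _)
    have h4 := dvd_add h3 hd
    rwa [sub_add_cancel] at h4
  have h2 := Finset.card_lt_card h1
  rwa [Finset.card_range] at h2

lemma const_pos (Q : Finset ℕ) (hQ : ∀ p ∈ Q, p.Prime) (P : Finset ℤ[X]) (hP : ∀ f ∈ P, 0 < f.natDegree)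
    (h : ∀ p ∈ Q, ∃ r : ℤ, ¬ (p : ℤ) ∣ ∏ f ∈ P, f.eval r) : 0 < const Q P := by
  unfold const
  refine mul_pos (Finset.prod_pos fun p hp => ?_) (Finset.prod_pos fun f hf => ?_)
  · obtain ⟨r, hr⟩ := h p hp
    have h1 : (1 : ℝ) < p := by exact_mod_cast (hQ p hp).one_lt
    have h3 : 0 < 1 - 1 / (p : ℝ) := by
      rw [sub_pos, div_lt_one (by linarith)]
      exact h1
    have h4 : (zeros P p : ℝ) < p := by exact_mod_cast zeros_lt P (hQ p hp) hr
    refine div_pos ?_ (pow_pos h3 _)
    rw [sub_pos, div_lt_one (by linarith)]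
    exact h4
  · exact inv_pos.2 (Nat.cast_pos.2 (hP f hf))

lemma prop_of {E : Set ℕ} {B : ℕ → Prop} (h : ∀ n, n ∈ E ↔ B n) {q : ℝ}
    (hE : Tendsto (fun X : ℕ => (cn E X : ℝ) / X) atTop (𝓝 q)) : Proportion B q := by
  refine hE.congr fun X => ?_
  rw [cn_ncard]
  congr 3
  ext n
  simp only [mem_ofPred_eq, h]

lemma window_eq (M : Set ℕ) {α : ℝ} (hα : 0 ≤ α) (k x : ℕ) : window M x (α * Real.log x ^ k) = wn M (LL α k) x :=
  wn_ncard M hα k x

lemma a_iff {S : Set ℕ} (hS : S.Infinite) {lam : ℝ} (hlam : 0 ≤ lam) (n : ℕ) :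
    wn S (LL lam 1) (n ^ 2) = 0 ↔ lam * (2 * Real.log n) < a S n := by
  have hne : {q | q ∈ S ∧ n ^ 2 < q}.Nonempty := by
    obtain ⟨q, hq1, hq2⟩ := hS.exists_gt (n ^ 2)
    exact ⟨q, hq1, hq2⟩
  obtain ⟨h1, h2⟩ := Nat.sInf_mem hne
  have hlog : Real.log ((n ^ 2 : ℕ) : ℝ) = 2 * Real.log n := by
    push_cast
    rw [Real.log_pow]
    norm_num
  have h3 : lam * (2 * Real.log n) < a S n ↔ n ^ 2 + LL lam 1 (n ^ 2) < sInf {q | q ∈ S ∧ n ^ 2 < q} := by
    unfold a
    rw [← hlog, ← Nat.floor_lt (mul_nonneg hlam (Real.log_natCast_nonneg _))]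
    have e : ⌊lam * Real.log ((n ^ 2 : ℕ) : ℝ)⌋₊ = LL lam 1 (n ^ 2) := by
      unfold LL
      rw [pow_one]
    rw [e]
    omega
  rw [h3, wn_zero]
  constructor
  · intro h
    by_contra hcon
    exact h _ h2 (not_lt.1 hcon) h1
  · intro h q hq1 hq2 hq3
    have := Nat.sInf_le (show q ∈ {q | q ∈ S ∧ n ^ 2 < q} from ⟨hq3, hq1⟩)
    omega

lemma sq_growth : Tendsto (fun n : ℕ => ((((n + 1) ^ 2 : ℕ) : ℝ) - ((n ^ 2 : ℕ) : ℝ)) / Real.log ((n ^ 2 : ℕ) : ℝ) ^ 1) atTop atTop := by
  have h1 : Tendsto (fun n : ℕ => (n : ℝ) / Real.log n) atTop atTop := by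
    have h2 := (Real.isLittleO_log_id_atTop.tendsto_div_nhds_zero).comp tendsto_natCast_atTop_atTop
    have h3 : Tendsto (fun n : ℕ => Real.log (n : ℝ) / (n : ℝ)) atTop (𝓝[>] 0) := by
      refine tendsto_nhdsWithin_iff.2 ⟨h2, ?_⟩
      filter_upwards [log_pos_ev, eventually_gt_atTop 0] with n hn hn0
      exact div_pos hn (by exact_mod_cast hn0)
    refine h3.inv_tendsto_nhdsGT_zero.congr fun n => ?_
    simp
  refine tendsto_atTop_mono' _ ?_ h1
  filter_upwards [log_pos_ev] with n hn
  have hlog : Real.log ((n ^ 2 : ℕ) : ℝ) = 2 * Real.log n := by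
    push_cast
    rw [Real.log_pow]
    norm_num
  rw [hlog, pow_one, div_le_div_iff₀ hn (by positivity)]
  have h5 : ((((n + 1) ^ 2 : ℕ) : ℝ) - ((n ^ 2 : ℕ) : ℝ)) = 2 * n + 1 := by
    push_cast
    ring
  rw [h5]
  nlinarith

end Pool.Agent.Results.MP_36c81c_nt.GapDistribution

open Pool.Agent.Results.MP_36c81c_nt.GapDistribution Pool.Agent.N740.HK Pool.Agent.R528.RM Pool.Agent.N315.PS Pool.Agent.N315.CC Pool.Agent.N315.PL Polynomial

/-- The model of Cramér (for some filtration) and the random sieve of Hawkins are sieved models with `Q = ∅`.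
In every sieved model: (1) almost surely, for all `λ > 0`, the proportion of the `n < N` with `a(n) > 2 λ log n` tends to
`exp (-λ)` and the proportion of the `n < N` with exactly `r` chosen integers in `(n ², n ² + 2 λ log n]` tends to
`λ ^ r / r! exp (-λ)`; (2) for every strictly increasing sequence `x`, almost surely, for ALL finite nonempty systems `P` of
integer polynomials of positive degree and positive leading coefficient whose product has no fixed divisor in `Q`
and such that `(x (n + 1) - x n) / log ^ |P| (x n) → ∞`, with `c = const Q P > 0`, the proportion of the `n < N` with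
exactly `r` integers `m` in `(x n, x n + (λ / c) log ^ |P| (x n)]` such that all `f(m)`, `f ∈ P`, are chosen tends to
`λ ^ r / r! exp (-λ)`. -/
theorem Pool.Agent.Results.MP_36c81c_nt.GapDistribution.result
    {Ω : Type} [m : MeasurableSpace Ω] (μ : Measure Ω) [IsProbabilityMeasure μ] (A : ℕ → Set Ω) :
    (CramerModel μ A → ∃ ℱ : Filtration ℕ m, SievedModel μ ℱ A ∅) ∧
    (∀ ℱ : Filtration ℕ m, HawkinsSieve μ ℱ A → SievedModel μ ℱ A ∅) ∧
    (∀ (ℱ : Filtration ℕ m) (Q : Finset ℕ), (∀ p ∈ Q, p.Prime) → SievedModel μ ℱ A Q →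
      (∀ᵐ ω ∂μ, {n | ω ∈ A n}.Infinite ∧ ∀ lam : ℝ, 0 < lam →
        Proportion (fun n => lam * (2 * Real.log n) < a {n | ω ∈ A n} n) (Real.exp (-lam)) ∧
        ∀ r : ℕ, Proportion (fun n => window {n | ω ∈ A n} (n ^ 2) (lam * (2 * Real.log n)) = r)
          (lam ^ r / (r.factorial : ℝ) * Real.exp (-lam))) ∧
      (∀ x : ℕ → ℕ, StrictMono x → ∀ᵐ ω ∂μ, ∀ P : Finset ℤ[X], P.Nonempty →
        (∀ f ∈ P, 0 < f.natDegree ∧ 0 < f.leadingCoeff) → (∀ p ∈ Q, ∃ r : ℤ, ¬ (p : ℤ) ∣ ∏ f ∈ P, f.eval r) →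
        Tendsto (fun n : ℕ => ((x (n + 1) : ℝ) - x n) / Real.log (x n) ^ P.card) atTop atTop →
        0 < const Q P ∧ ∀ lam : ℝ, 0 < lam → ∀ r : ℕ,
          Proportion (fun n => window (values {n | ω ∈ A n} P) (x n) (lam / const Q P * Real.log (x n) ^ P.card) = r)
            (lam ^ r / (r.factorial : ℝ) * Real.exp (-lam)))) := by
  classical
  refine ⟨?_, ?_, ?_⟩
  · rintro ⟨hA, hi, hp⟩
    refine ⟨gen hA, sieved_of_seq (gen_meas hA) ?_⟩
    have h1 : ∀ᵐ ω ∂μ, ∀ n, (μ[(A (n + 1)).indicator (fun _ => (1 : ℝ)) | gen hA n]) ω =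
        (μ (A (n + 1))).toReal := ae_all_iff.2 fun n => dens_gen hA hi n
    filter_upwards [h1] with ω hω
    refine log_ratio.congr' ?_
    filter_upwards [eventually_ge_atTop 2] with n hn
    rw [hω, hp (n + 1) (by omega), ENNReal.toReal_ofReal, one_div]
    have : 0 ≤ Real.log ((n + 1 : ℕ) : ℝ) := Real.log_natCast_nonneg _
    positivity
  · rintro ℱ ⟨h1, h2, h3⟩
    have hs : Pool.Agent.N740.HK.HS μ ℱ A := ⟨h1, h2, fun n hn => by
      filter_upwards [h3 n hn] with ω hω
      rw [← prod_inv]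
      exact hω⟩
    exact sieved_of_seq h1 (Pool.Agent.N740.HK.hawk_dens hs)
  · rintro ℱ Q hQ ⟨hA, hcop, hd⟩
    refine ⟨?_, fun x hx => ?_⟩
    · have hsq : StrictMono (fun n : ℕ => n ^ 2) := fun u v huv => Nat.pow_lt_pow_left huv (by norm_num)
      filter_upwards [sub_full (μ := μ) (ℱ := ℱ) hA Q hQ hcop hd hsq, full (μ := μ) (ℱ := ℱ) hA Q hQ hcop hd] with ω g1 g2
      set S : Set ℕ := {n | ω ∈ A n} with hS
      have hC : bc Q (sh {0}) = 1 := by rw [sh_const Q hQ, sc_zero Q hQ]
      have hinf : S.Infinite := by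
        have h1 := (g2 (sh {0}) (sh_deg _)).1
        rw [hC, PM_sh, TD_zero] at h1
        exact inf_of_count one_pos h1
      have h1 := g1 (sh {0}) (Finset.card_pos.1 (by rw [sh_card]; simp)) (sh_deg _) (by rw [hC]; exact one_pos)
      rw [sh_card, Finset.card_singleton, hC, PM_sh, TD_zero] at h1
      have h2 := h1 sq_growth
      refine ⟨hinf, fun lam hlam => ⟨?_, fun r => ?_⟩⟩
      · have h3 := h2 lam hlam 0
        rw [div_one] at h3
        have h4 : po lam 0 = Real.exp (-lam) := by simp [po]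
        rw [h4] at h3
        exact prop_of (fun n => a_iff hinf hlam.le n) h3
      · have h3 := h2 lam hlam r
        rw [div_one] at h3
        refine prop_of (fun n => ?_) h3
        have hlog : Real.log ((n ^ 2 : ℕ) : ℝ) = 2 * Real.log n := by
          push_cast
          rw [Real.log_pow]
          norm_num
        have h4 := window_eq S hlam.le 1 (n ^ 2)
        rw [hlog, pow_one] at h4
        simp only [mem_ofPred_eq]
        rw [h4]
    · filter_upwards [sub_full (μ := μ) (ℱ := ℱ) hA Q hQ hcop hd hx] with ω g1 P hne hP hadm hgr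
      have hC := const_pos Q hQ P (fun f hf => (hP f hf).1) hadm
      refine ⟨hC, fun lam hlam r => ?_⟩
      have h1 := g1 P hne hP hC hgr lam hlam r
      refine prop_of (fun n => ?_) h1
      have h4 := window_eq (values {n | ω ∈ A n} P) (show 0 ≤ lam / const Q P by positivity) P.card (x n)
      simp only [mem_ofPred_eq]
      rw [h4]
      exact Iff.rfl
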