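import Mathlib
import Pool.Agent.N740.HK.Trials
import Pool.Agent.N740.HK.Sch

/-!
# The gap after a square in all sequential random models of the primes

The integers are decided one after the other and the conditional probability of choosing `n + 1`,
given the decisions up to `n`, is asymptotic to `1 / log n`, almost surely.  Nothing else is assumed:
no independence and no rate of convergence.  The independent model of Cramér and the random sieve of
Hawkins are examples.
-/

set_option autoImplicit false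

open MeasureTheory Filter Set ProbabilityTheory
open scoped Topology

namespace Pool.Agent.Results.MP_36c81c_nt.SequentialModels

variable {Ω : Type}

/-- `A n` is the event that `n` is chosen.  The events are adapted to the filtration `ℱ` and the
conditional probability of `A (n + 1)` given `ℱ n`, times `log n`, tends to `1` almost surely. -/
def SequentialModel [m : MeasurableSpace Ω] (μ : Measure Ω) (ℱ : Filtration ℕ m) (A : ℕ → Set Ω) : Prop :=
  (∀ n, MeasurableSet[ℱ n] (A n)) ∧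
  ∀ᵐ ω ∂μ, Tendsto (fun n : ℕ => (μ[(A (n + 1)).indicator (fun _ => (1 : ℝ)) | ℱ n]) ω * Real.log n) atTop (𝓝 1)

/-- The model of Cramér: independent events, `n` is chosen with probability `1 / log n` for `n ≥ 3`. -/
def CramerModel [MeasurableSpace Ω] (μ : Measure Ω) (A : ℕ → Set Ω) : Prop :=
  (∀ n, MeasurableSet (A n)) ∧ iIndepSet A μ ∧ ∀ n : ℕ, 3 ≤ n → μ (A n) = ENNReal.ofReal (1 / Real.log n)

open Classical in
/-- The random sieve of Hawkins: `2` is chosen, and given the decisions up to `n ≥ 2` the number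
`n + 1` is chosen with probability `∏ (1 - 1 / h)`, the product over the chosen `2 ≤ h ≤ n`. -/
def HawkinsSieve [m : MeasurableSpace Ω] (μ : Measure Ω) (ℱ : Filtration ℕ m) (A : ℕ → Set Ω) : Prop :=
  (∀ n, MeasurableSet[ℱ n] (A n)) ∧ A 2 = univ ∧
  ∀ n, 2 ≤ n → μ[(A (n + 1)).indicator (fun _ => (1 : ℝ)) | ℱ n] =ᵐ[μ]
    fun ω => ∏ h ∈ Finset.Icc 2 n, if ω ∈ A h then 1 - 1 / (h : ℝ) else 1

/-- `a(n) = q(n) - n²`, where `q(n)` is the least member of `S` greater than `n²`. -/
noncomputable def gapAfterSquare (S : Set ℕ) (n : ℕ) : ℕ := sInf {q | q ∈ S ∧ n ^ 2 < q} - n ^ 2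

open Pool.Agent.N740.HK Pool.Agent.R528.RM

lemma prod_inv (A : ℕ → Set Ω) (n : ℕ) (ω : Ω) [DecidablePred fun h => ω ∈ A h] :
    (∏ h ∈ Finset.Icc 2 n, if ω ∈ A h then 1 - 1 / (h : ℝ) else 1) = (Y A n ω)⁻¹ := by
  unfold Y
  rw [← Finset.prod_inv_distrib]
  refine Finset.prod_congr rfl fun h hh => ?_
  have h2 : (2 : ℝ) ≤ h := by exact_mod_cast (Finset.mem_Icc.1 hh).1
  by_cases hA : ω ∈ A h
  · rw [if_pos hA, if_pos hA, inv_div]
    field_simp
  · rw [if_neg hA, if_neg hA, inv_one]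

lemma log_ratio : Tendsto (fun n : ℕ => (Real.log ((n + 1 : ℕ) : ℝ))⁻¹ * Real.log n) atTop (𝓝 1) := by
  have h1 : Tendsto (fun n : ℕ => Real.log ((n : ℝ) + 1) - Real.log n) atTop (𝓝 0) := by
    have h1 : Tendsto (fun n : ℕ => 1 + (1 : ℝ) / n) atTop (𝓝 (1 + 0)) :=
      tendsto_const_nhds.add tendsto_one_div_atTop_nhds_zero_nat
    rw [add_zero] at h1
    have h2 := (Real.continuousAt_log (one_ne_zero)).tendsto.comp h1
    rw [Real.log_one] at h2
    refine h2.congr' ?_
    filter_upwards [eventually_gt_atTop 0] with n hn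
    have hn' : (0 : ℝ) < n := by exact_mod_cast hn
    show Real.log (1 + 1 / (n : ℝ)) = _
    rw [← Real.log_div (by positivity) hn'.ne']
    congr 1
    field_simp
  have h2 : Tendsto (fun n : ℕ => Real.log ((n : ℝ) + 1)) atTop atTop :=
    Real.tendsto_log_atTop.comp (tendsto_atTop_add_const_right _ _ tendsto_natCast_atTop_atTop)
  have h3 := h1.div_atTop h2
  have h4 : Tendsto (fun n : ℕ => 1 - (Real.log ((n : ℝ) + 1) - Real.log n) / Real.log ((n : ℝ) + 1)) atTop (𝓝 (1 - 0)) :=
    tendsto_const_nhds.sub h3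
  rw [sub_zero] at h4
  refine h4.congr' ?_
  filter_upwards [h2.eventually_gt_atTop 0] with n hn
  push_cast
  field_simp
  ring

end Pool.Agent.Results.MP_36c81c_nt.SequentialModels

open Pool.Agent.Results.MP_36c81c_nt.SequentialModels Pool.Agent.N740.HK Pool.Agent.R528.RM

/-- The random sieve of Hawkins is a sequential model, the model of Cramér is one for some filtration.
In every sequential model, almost surely, infinitely many integers are chosen, `a(n) ≤ 1 + φ(n)` for all large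
`n`, and `a(n)` has the exact maximal order `2 log² n`: for every `ε > 0` the inequality
`a(n) ≤ (2 + ε) log² n` holds for all large `n`, and `a(n) > (2 - ε) log² n` for infinitely many `n`. -/
theorem Pool.Agent.Results.MP_36c81c_nt.SequentialModels.result
    {Ω : Type} [m : MeasurableSpace Ω] (μ : Measure Ω) [IsProbabilityMeasure μ] (A : ℕ → Set Ω) :
    (CramerModel μ A → ∃ ℱ : Filtration ℕ m, SequentialModel μ ℱ A) ∧
    ∀ ℱ : Filtration ℕ m,
    (HawkinsSieve μ ℱ A → SequentialModel μ ℱ A) ∧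
    (SequentialModel μ ℱ A →
      ∀ᵐ ω ∂μ, {k | ω ∈ A k}.Infinite ∧
        (∀ᶠ n : ℕ in atTop, gapAfterSquare {k | ω ∈ A k} n ≤ 1 + Nat.totient n) ∧
        ∀ ε : ℝ, 0 < ε →
          (∀ᶠ n : ℕ in atTop, (gapAfterSquare {k | ω ∈ A k} n : ℝ) ≤ (2 + ε) * Real.log n ^ 2) ∧
          ∃ᶠ n : ℕ in atTop, (2 - ε) * Real.log n ^ 2 < gapAfterSquare {k | ω ∈ A k} n) := by
  classical
  refine ⟨?_, fun ℱ => ⟨?_, ?_⟩⟩
  · rintro ⟨hA, hi, hp⟩
    refine ⟨gen hA, gen_meas hA, ?_⟩
    have h1 : ∀ᵐ ω ∂μ, ∀ n, (μ[(A (n + 1)).indicator (fun _ => (1 : ℝ)) | gen hA n]) ω =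
        (μ (A (n + 1))).toReal := ae_all_iff.2 fun n => dens_gen hA hi n
    filter_upwards [h1] with ω hω
    refine log_ratio.congr' ?_
    filter_upwards [eventually_ge_atTop 2] with n hn
    rw [hω, hp (n + 1) (by omega), ENNReal.toReal_ofReal, one_div]
    have : 0 ≤ Real.log ((n + 1 : ℕ) : ℝ) := Real.log_natCast_nonneg _
    positivity
  · rintro ⟨h1, h2, h3⟩
    have hs : Pool.Agent.N740.HK.HS μ ℱ A := ⟨h1, h2, fun n hn => by
      filter_upwards [h3 n hn] with ω hω
      rw [← prod_inv]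
      exact hω⟩
    exact ⟨h1, Pool.Agent.N740.HK.hawk_dens hs⟩
  · rintro ⟨hA, hd⟩
    set up : ℕ → ℝ := fun n => 1 / ((n : ℝ) + 1) with hup
    have up1 : ∀ n, 0 < up n := fun n => by simp only [hup]; positivity
    have up2 : ∀ n, up n ≤ 1 := fun n => by
      simp only [hup]
      rw [div_le_one (by positivity)]
      have : (0 : ℝ) ≤ n := Nat.cast_nonneg n
      linarith
    have hu : ∀ᵐ ω ∂μ, ∀ i, ∀ᶠ n : ℕ in atTop, ∃ r : ℕ, n ^ 2 < r ∧ (r : ℝ) ≤ n ^ 2 + (2 + up i) * Real.log n ^ 2 ∧ ω ∈ A r :=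
      ae_all_iff.2 fun i => sq_upper hA hd (up1 i) (up2 i)
    have hl : ∀ᵐ ω ∂μ, ∀ i, ∃ᶠ n : ℕ in atTop, ∀ r : ℕ, n ^ 2 < r → (r : ℝ) ≤ n ^ 2 + (2 - up i) * Real.log n ^ 2 → ω ∉ A r :=
      ae_all_iff.2 fun i => sq_lower hA hd (up1 i) (up2 i)
    filter_upwards [hu, hl, cnt_law (μ := μ) hA hd] with ω h1 h2 h3
    have hS : {k | ω ∈ A k}.Infinite := inf_of_law h3
    -- the upper bound
    have key : ∀ (n r : ℕ), n ^ 2 < r → ω ∈ A r → gapAfterSquare {k | ω ∈ A k} n ≤ r - n ^ 2 := by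
      intro n r hr1 hr2
      unfold gapAfterSquare
      have : sInf {q | q ∈ {k | ω ∈ A k} ∧ n ^ 2 < q} ≤ r := Nat.sInf_le ⟨hr2, hr1⟩
      omega
    have hup' : ∀ ε : ℝ, 0 < ε → ∀ᶠ n : ℕ in atTop, (gapAfterSquare {k | ω ∈ A k} n : ℝ) ≤ (2 + ε) * Real.log n ^ 2 := by
      intro ε hε
      obtain ⟨i, hi⟩ := exists_nat_gt (1 / ε)
      filter_upwards [h1 i] with n hn
      obtain ⟨r, r1, r2, r3⟩ := hn
      have h4 := key n r r1 r3
      have h5 : (gapAfterSquare {k | ω ∈ A k} n : ℝ) ≤ ((r - n ^ 2 : ℕ) : ℝ) := by exact_mod_cast h4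
      rw [Nat.cast_sub r1.le] at h5
      push_cast at h5
      have h6 : up i ≤ ε := by
        simp only [hup]
        rw [div_le_iff₀ (by positivity)]
        rw [div_lt_iff₀ hε] at hi
        nlinarith
      have h7 : 0 ≤ Real.log (n : ℝ) ^ 2 := sq_nonneg _
      nlinarith
    refine ⟨hS, ?_, fun ε hε => ⟨hup' ε hε, ?_⟩⟩
    · have h4 : ∀ᶠ x : ℝ in atTop, 3 * Real.log x ^ 2 ≤ √(x / 2) := by
        have h5 := (isLittleO_log_rpow_rpow_atTop (s := 1 / 2) 2 (by norm_num)).def (show (0 : ℝ) < 1 / 5 by norm_num)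
        filter_upwards [h5, eventually_gt_atTop 1] with x hx hx0
        have hlog : 0 ≤ Real.log x := Real.log_nonneg hx0.le
        rw [Real.norm_of_nonneg (by positivity), Real.norm_of_nonneg (by positivity), Real.rpow_two,
          ← Real.sqrt_eq_rpow] at hx
        have h6 : √x ≤ 5 / 3 * √(x / 2) := by
          rw [Real.sqrt_le_left (by positivity), mul_pow, Real.sq_sqrt (by positivity)]
          linarith
        linarith
      filter_upwards [hup' 1 one_pos, tendsto_natCast_atTop_atTop.eventually h4, eventually_gt_atTop 0] with n hn hn4 hn0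
      have h5 := tot_lower n hn0
      have h6 : √((n : ℝ) / 2) ≤ Nat.totient n := by
        rw [Real.sqrt_le_left (by positivity)]
        have : (n : ℝ) ≤ 2 * (Nat.totient n : ℝ) ^ 2 := by exact_mod_cast h5
        linarith
      have h7 : (gapAfterSquare {k | ω ∈ A k} n : ℝ) ≤ 1 + Nat.totient n := by linarith
      exact_mod_cast h7
    · obtain ⟨i, hi⟩ := exists_nat_gt (1 / ε)
      have h6 : up i < ε := by
        simp only [hup]
        rw [div_lt_iff₀ (by positivity)]
        rw [div_lt_iff₀ hε] at hi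
        nlinarith
      refine ((h2 i).and_eventually (eventually_ge_atTop 3)).mono ?_
      rintro n ⟨hn, hn3⟩
      have hne : {q | q ∈ {k | ω ∈ A k} ∧ n ^ 2 < q}.Nonempty := by
        obtain ⟨q, hq1, hq2⟩ := hS.exists_gt (n ^ 2)
        exact ⟨q, hq1, hq2⟩
      have h7 := Nat.sInf_mem hne
      have h8 : (n : ℝ) ^ 2 + (2 - up i) * Real.log n ^ 2 < (sInf {q | q ∈ {k | ω ∈ A k} ∧ n ^ 2 < q} : ℕ) := by
        by_contra hcon
        push Not at hcon
        exact hn _ h7.2 hcon h7.1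
      have hn3' : (3 : ℝ) ≤ n := by exact_mod_cast hn3
      have h9 : 0 < Real.log (n : ℝ) ^ 2 := by
        have := Real.log_pos (show (1 : ℝ) < n by linarith)
        positivity
      unfold gapAfterSquare
      rw [Nat.cast_sub h7.2.le]
      push_cast
      nlinarith
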