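import Pool.Agent.N725.SQ.Main

/-!
# Squares of the residues of polynomials modulo a prime, far from all primes

Let `q(n)` be the least prime above `n ^ 2` and `a(n) = q(n) - n ^ 2`, and let
`R(x) = log x (log₂ x) ^ 2 log₄ x / (log₃ x) ^ 2` be the record length of Ford, Green, Konyagin, Maynard and Tao.
It is known that `a(n)` is as large as `κ R` for some `n` in every interval, for runs of consecutive `n`
(`MP_73869e_nt.ConsecutiveSquares`), and at many places given by smooth functions of a prime number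
(`SquaresOfSmoothValues`, helper542). Here the places are given by an ARITHMETIC condition: they are the integers
of a short interval, or of a box, which are congruent to the values of given polynomials modulo a large prime.

Precisely (`result`), let `k ≥ 1, D, B` and `0 < δ ≤ 1` be fixed. There is `κ > 0` such that the following
holds for all large primes `p`. Let `f₁, …, f_k` be polynomials modulo `p` of degree at most `D`, no nontrivial
linear combination of which is constant (for instance `x, x², …, x^k`), let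
`(M₁, M₁ + H₁] × … × (M_k, M_k + H_k]` be a box with sides `H_i ≤ p` and volume `V ≥ p ^ (k - 1/2 + δ)`, and
let `(A, K)` be admissible, that is,
* `K` consists of integers `|h| ≤ (log p) ^ B` and `A |K| ≤ κ log p log log p`, or
* `K = {0, …, H - 1}` with `H ^ 2 ≤ κ log p`, and `A ≤ κ log p` or `A H ≤ κ R(p)`.
Then for at least `V p ^ (1 - k - δ)` residues `x` modulo `p` the box contains integers `n₁, …, n_k` with
`n_i ≡ f_i(x) (mod p)` such that NO prime lies within `A` of one of the squares `(n_i + h) ^ 2`, `h ∈ K`,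
`|n_i + h| > p ^ δ`.

In particular (`next_prime`), if the box consists of integers larger than `p ^ δ`, then `a(n_i) > κ R(p)` for
all `i ≤ k` for at least `V p ^ (1 - k - δ)` residues `x`. For `k = 1` and `f₁ = x²` (or `ν x²`): every interval of
length `p ^ (1/2 + δ)` contains many quadratic residues `n` (or many nonresidues) modulo `p` with
`a(n) > κ R(p)`. For `k = 2` and `f = (x, x²)` one obtains integers `n₁, n₂` in given intervals of lengths `H₁, H₂`,
`H₁ H₂ ≥ p ^ (3/2 + δ)`, with `n₂ ≡ n₁² (mod p)` and `a(n₁), a(n₂) > κ R(p)`.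

Proof (`Pool.Agent.N725.SQ`). By Weil's bound the vectors `(n₁, …, n_k)` are well distributed modulo the
integers up to a small power of `p` (`Pool.Agent.N725.JC`), so the covering sieve for the polynomials
`(X + h) ^ 2 + a` of `Pool.Agent.N542.PV` (helper542, after helper201 and the starting files) applies to them;
the number of the residues `x` is obtained by applying it to the family of all the `x` which are not good.
-/

set_option autoImplicit false

namespace Pool.Agent.Results.MP_36c81c_nt.SquaresAtPolynomialResidues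

open Finset Filter Polynomial

/-- the record length `R(x) = log x (log₂ x) ^ 2 log₄ x / (log₃ x) ^ 2` -/
noncomputable def R (x : ℝ) : ℝ :=
  Real.log x * (Real.log (Real.log x)) ^ 2 * Real.log (Real.log (Real.log (Real.log x))) /
    (Real.log (Real.log (Real.log x))) ^ 2

/-- the admissible pairs: a distance `A` and a set of shifts `K` -/
def Admissible (κ : ℝ) (B : ℕ) (Z : ℝ) (A : ℕ) (K : Finset ℤ) : Prop :=
  ((∀ h ∈ K, |(h : ℝ)| ≤ (Real.log Z) ^ B) ∧
    (A : ℝ) * K.card ≤ κ * Real.log Z * Real.log (Real.log Z)) ∨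
  ∃ H : ℕ, K = Ico (0 : ℤ) H ∧ (H : ℝ) ^ 2 ≤ κ * Real.log Z ∧
    ((A : ℝ) ≤ κ * Real.log Z ∨ (A : ℝ) * H ≤ κ * R Z)

/-- no prime lies within `A` of `m` -/
def Isolated (A : ℕ) (m : ℤ) : Prop := ∀ q : ℕ, q.Prime → (A : ℤ) < |(q : ℤ) - m|

open Classical in
/-- The main theorem. -/
theorem result (k D B : ℕ) (hk : 1 ≤ k) (δ : ℝ) (hδ : 0 < δ) (hδ1 : δ ≤ 1) :
    ∃ κ : ℝ, 0 < κ ∧ ∀ᶠ p : ℕ in atTop, p.Prime →
    ∀ f : Fin k → (ZMod p)[X], (∀ i, (f i).natDegree ≤ D) →
    (∀ c : Fin k → ZMod p, c ≠ 0 → 1 ≤ (∑ i, C (c i) * f i).natDegree) →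
    ∀ (M : Fin k → ℤ) (H : Fin k → ℕ), (∀ i, H i ≤ p) →
      (p : ℝ) ^ (k - 1 / 2 + δ) ≤ ∏ i, (H i : ℝ) →
    ∀ (A : ℕ) (K : Finset ℤ), Admissible κ B p A K →
      (∏ i, (H i : ℝ)) * (p : ℝ) ^ (1 - k - δ) ≤
        ({x : ZMod p | ∃ n : Fin k → ℤ,
          (∀ i, M i < n i ∧ n i ≤ M i + H i ∧ ((n i : ℤ) : ZMod p) = (f i).eval x) ∧
          ∀ i, ∀ h ∈ K, (p : ℝ) ^ δ < |((n i + h : ℤ) : ℝ)| →
            Isolated A ((n i + h) ^ 2)}.ncard : ℝ) := by
  obtain ⟨κ₀, hκ₀, hev⟩ := Pool.Agent.N725.SQ.resid_sq k hk B δ hδ hδ1 D (Nat.cast_nonneg D)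
  refine ⟨min κ₀ 1, lt_min hκ₀ one_pos, ?_⟩
  have hT : Tendsto (fun p : ℕ => (p : ℝ)) atTop atTop := tendsto_natCast_atTop_atTop
  filter_upwards [hev, eventually_gt_atTop D, eventually_ge_atTop 2,
    hT.eventually Pool.Agent.N542.PV.ev_ff,
    hT.eventually (Pool.Agent.N542.PV.ev_adm (min κ₀ 1) B (min_le_right _ _) δ hδ)]
    with p hp hpD hp2 hff hadm
  intro hpp f hf hind M H hH hV A K hA
  haveI : Fact p.Prime := ⟨hpp⟩
  obtain ⟨hL, hl0, hlL, hR0, hR⟩ := hff
  have hp0 : (0 : ℝ) < p := by exact_mod_cast hpp.pos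
  have hp1 : (1 : ℝ) < p := by exact_mod_cast hpp.one_lt
  have hlog : 0 ≤ Real.log p := Real.log_nonneg hp1.le
  have hcard : ((univ : Finset (ZMod p)).card : ℝ) = p := by rw [card_univ, ZMod.card]
  have hpk : (p : ℝ) ^ (k : ℝ) = (p : ℝ) ^ k := Real.rpow_natCast _ _
  have h1 := hp (ZMod p) univ (fun i x => (f i).eval x) M H (by rw [card_univ, ZMod.card])
    (by
      intro h hh
      refine (Pool.Agent.N725.SQ.poly_sum k D f hf hpD hind h hh).trans ?_
      rw [Real.sqrt_eq_rpow]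
      have h2 : (0 : ℝ) ≤ D * (p : ℝ) ^ (1 / 2 : ℝ) := by positivity
      nlinarith)
    hH (by
      rw [hcard, mul_div_assoc]
      have h4 : (p : ℝ) / (p : ℝ) ^ k = (p : ℝ) ^ (1 - k : ℝ) := by
        rw [← hpk, Real.rpow_sub hp0, Real.rpow_one]
      have h3 : (p : ℝ) ^ (1 / 2 + δ) = (p : ℝ) ^ (k - 1 / 2 + δ) * (p / (p : ℝ) ^ k) := by
        rw [h4, ← Real.rpow_add hp0]
        congr 1
        ring
      rw [h3]
      exact mul_le_mul_of_nonneg_right hV (by positivity)) A K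
    (Pool.Agent.N542.PV.AdmSq_mono (min_le_left _ _) (by linarith) hl0 hR0 hA)
  rw [hcard] at h1
  have h2 : (∏ i, (H i : ℝ)) * p / (p : ℝ) ^ k * (p : ℝ) ^ (-δ) =
      (∏ i, (H i : ℝ)) * (p : ℝ) ^ (1 - k - δ) := by
    have h3 : (p : ℝ) ^ (1 - k - δ) = p / (p : ℝ) ^ k * (p : ℝ) ^ (-δ) := by
      rw [← hpk, sub_eq_add_neg (1 - (k : ℝ)) δ, Real.rpow_add hp0, Real.rpow_sub hp0, Real.rpow_one]
    rw [h3]
    ring
  rw [h2] at h1
  refine h1.trans ?_
  rw [Nat.cast_le, ← Set.ncard_coe_finset]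
  apply Set.ncard_le_ncard _ (Set.toFinite _)
  intro x hx
  rw [Finset.mem_coe, mem_filter] at hx
  obtain ⟨-, hx1, hx2⟩ := hx
  refine ⟨fun i => Pool.Agent.N725.SQ.rep (M i) (H i) ((f i).eval x), hx1, ?_⟩
  intro i h hh hbig q hq
  exact Pool.Agent.N542.PV.iso_of_good (hadm A K ⟨h, hh⟩ hA) hbig
    (fun a ha hsq => hx2 i h hh a ha hsq) q hq

open Classical in
/-- The distance from the squares to the next primes: `a(n_i) > κ R(p)` for all `i`. -/
theorem next_prime (k D : ℕ) (hk : 1 ≤ k) (δ : ℝ) (hδ : 0 < δ) (hδ1 : δ ≤ 1) :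
    ∃ κ : ℝ, 0 < κ ∧ ∀ᶠ p : ℕ in atTop, p.Prime →
    ∀ f : Fin k → (ZMod p)[X], (∀ i, (f i).natDegree ≤ D) →
    (∀ c : Fin k → ZMod p, c ≠ 0 → 1 ≤ (∑ i, C (c i) * f i).natDegree) →
    ∀ (M : Fin k → ℕ) (H : Fin k → ℕ), (∀ i, (p : ℝ) ^ δ ≤ M i) → (∀ i, H i ≤ p) →
      (p : ℝ) ^ (k - 1 / 2 + δ) ≤ ∏ i, (H i : ℝ) →
      (∏ i, (H i : ℝ)) * (p : ℝ) ^ (1 - k - δ) ≤
        ({x : ZMod p | ∃ n : Fin k → ℕ,
          (∀ i, M i < n i ∧ n i ≤ M i + H i ∧ ((n i : ℕ) : ZMod p) = (f i).eval x) ∧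
          ∀ i, ∀ q : ℕ, q.Prime → n i ^ 2 < q → κ * R p < (q : ℝ) - (n i : ℝ) ^ 2}.ncard : ℝ) := by
  obtain ⟨κ, hκ, h⟩ := result k D 0 hk δ hδ hδ1
  refine ⟨κ, hκ, ?_⟩
  have hT : Tendsto (fun p : ℕ => (p : ℝ)) atTop atTop := tendsto_natCast_atTop_atTop
  have t1 : Tendsto Real.log atTop atTop := Real.tendsto_log_atTop
  filter_upwards [h, hT.eventually (t1.eventually_ge_atTop (1 / κ)),
    hT.eventually Pool.Agent.N542.PV.ev_ff] with p h hp hff
  intro hpp f hf hind M H hM hH hV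
  have hR : 0 ≤ R p := hff.2.2.2.1
  rw [div_le_iff₀ hκ] at hp
  haveI : Fact p.Prime := ⟨hpp⟩
  refine (h hpp f hf hind (fun i => (M i : ℤ)) H hH hV ⌊κ * R p⌋₊ (Ico (0 : ℤ) (1 : ℕ))
    (Or.inr ⟨1, rfl, by rw [Nat.cast_one, one_pow]; linarith, Or.inr (by
      rw [Nat.cast_one, mul_one]; exact Nat.floor_le (by positivity))⟩)).trans ?_
  rw [Nat.cast_le]
  apply Set.ncard_le_ncard _ (Set.toFinite _)
  rintro x ⟨n, hn1, hn2⟩
  have hn0 : ∀ i, 0 ≤ n i := fun i => le_trans (Int.natCast_nonneg (M i)) (hn1 i).1.le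
  refine ⟨fun i => (n i).toNat, fun i => ?_, fun i q hq hq2 => ?_⟩
  · obtain ⟨a1, a2, a3⟩ := hn1 i
    have e := Int.toNat_of_nonneg (hn0 i)
    refine ⟨?_, ?_, ?_⟩
    · show M i < (n i).toNat
      omega
    · show (n i).toNat ≤ M i + H i
      omega
    · show (((n i).toNat : ℕ) : ZMod p) = _
      rw [← a3]
      have h7 : ((((n i).toNat : ℕ) : ℤ) : ZMod p) = ((n i : ℤ) : ZMod p) := by rw [e]
      rwa [Int.cast_natCast] at h7
  · have e := Int.toNat_of_nonneg (hn0 i)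
    have h6 := hn2 i 0 (by simp) (by
      rw [add_zero]
      refine (hM i).trans_lt (lt_of_lt_of_le ?_ (le_abs_self _))
      exact_mod_cast (hn1 i).1) q hq
    rw [add_zero] at h6
    have h8 : (n i) ^ 2 < (q : ℤ) := by
      rw [← e]
      exact_mod_cast hq2
    rw [abs_of_pos (by linarith)] at h6
    have h9 : ((⌊κ * R p⌋₊ : ℕ) : ℝ) + 1 ≤ (q : ℝ) - (n i : ℝ) ^ 2 := by
      have h10 : ((⌊κ * R p⌋₊ : ℕ) : ℤ) + 1 ≤ (q : ℤ) - (n i) ^ 2 := by omega
      exact_mod_cast h10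
    have h11 := Nat.lt_floor_add_one (κ * R p)
    have h12 : (((n i).toNat : ℕ) : ℝ) = (n i : ℝ) := by
      have h7 : ((((n i).toNat : ℕ) : ℤ) : ℝ) = ((n i : ℤ) : ℝ) := by rw [e]
      rwa [Int.cast_natCast] at h7
    rw [h12]
    linarith

end Pool.Agent.Results.MP_36c81c_nt.SquaresAtPolynomialResidues
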