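import Pool.Agent.N542.PV.Main
import Pool.Agent.N542.PB.GenPoly

set_option autoImplicit false

/-!
# Squares of the integral parts of smooth functions of a prime number, far from all primes

Let `q(n)` be the least prime above `n ^ 2` and `a(n) = q(n) - n ^ 2`. It is known that `a(n)` is as large as the
record length `R` of Ford, Green, Konyagin, Maynard and Tao for some `n` (Maier and Rassias for powers, Baker and
Freiberg), and for runs of consecutive `n` in every interval of length `Y` (helper201 and the starting files). We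
show that this happens at MANY places which are prescribed by smooth functions of a PRIME number, at several places
at the same time, with runs and with arbitrary sets of shifts.

Precisely (`result`), let `f_1, …, f_r` be smoothly varying functions (Bingham, Goldie, Teugels) with real indices
`c_j ∉ {0, 1, 2, …}`, for instance `t ^ (c_j)` plus a combination of lower real powers, let `u_j` be real numbers,
`v_j = c_j + u_j`. The places are `x_k(p) = α_{φ(k)} f_{φ(k)}(p + σ(k)) + P_k(p)`, `k ≤ n`: every function may be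
used at fewer than `v_j + 1` different points `p + σ(k)`, provided that the `v_j` are incongruent modulo one; if
every function is used at most once, it is enough that the `v_j` are distinct (and positive). Let `b` be prime to
`d`, `B, D` natural numbers and `0 < ε ≤ 1 / 2`. There are `κ, δ > 0` such that for all large `Z`, for ALL
admissible pairs `(A, K)`, ALL real `α_j` with `Z ^ (u_j - δ) ≤ |α_j| ≤ Z ^ (u_j + δ)` and ALL real polynomials
`P_k` of degree at most `D`, at least `Z ^ (1 - ε)` primes `p ≡ b (mod d)` of `(Z, (1 + ε) Z]` are such that NO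
prime lies within `A` of one of the squares of the integers `m = ⌊x_k(p)⌋ + h`, `h ∈ K`, `k ≤ n`, `|m| > Z ^ ε`.
Here `(A, K)` is admissible if
* `K` consists of integers `|h| ≤ (log Z) ^ B` and `A |K| ≤ κ log Z log log Z`, or
* `K = {0, …, H - 1}` with `H ^ 2 ≤ κ log Z`, and `A ≤ κ log Z` or `A H ≤ κ R(Z)`.

For `c_j > 0`, `u_j = 0`, `α_j = 1`, `P_k = 0` the condition `|m| > Z ^ ε` is superfluous (`no_primes`). So
(`next_prime`) for at least `Z ^ (1 - ε)` primes `p ≡ b (mod d)` of `(Z, (1 + ε) Z]` all the numbers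
`n_k = ⌊f_{φ(k)}(p + σ(k))⌋`, `k ≤ n`, satisfy `a(n_k) > κ R(Z)`: for instance `⌊p ^ c⌋` for any real `c > 0` which
is not an integer, `⌊p ^ c⌋, ⌊p ^ e⌋, …` at the same time, and `⌊p ^ c⌋, ⌊(p + 2) ^ c⌋` at the same time
for `c > 1`.

Proof (`Pool.Agent.N542.PV`). The three parts of the proof of `MP_73869e_nt.ConsecutiveSquares` (helper201) are
generalized from an interval of integers to arbitrary families of integer vectors which are well distributed modulo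
the integers up to a small power of `Z`, with a loss in the densities of the covering sieve, a prime `q` being
used for a pair at the place `k` only if no other place is hit modulo `q`. The family
`(⌊x_1(p)⌋, …, ⌊x_n(p)⌋)` is well distributed by the exponential sums over primes of
`MP_c853c5_nt.NeighbouringValues` and the inequality of Erdős-Turán-Koksma; the number of the primes `p` is obtained by
applying the criterion to the family of all the `p` which are not good.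
-/

namespace Pool.Agent.Results.MP_36c81c_nt.SquaresOfSmoothValues

open Finset Filter Topology Polynomial

/-- `f` is smoothly varying with index `c`: it is positive and has derivatives of every order near
infinity, and `t ^ j f⁽ʲ⁾(t) / f(t)` tends to `c (c - 1) ⋯ (c - j + 1)` for every `j`. -/
def SmoothlyVarying (c : ℝ) (f : ℝ → ℝ) : Prop :=
  (∀ᶠ t in atTop, 0 < f t) ∧
  (∀ j : ℕ, ∀ᶠ t in atTop, DifferentiableAt ℝ (iteratedDeriv j f) t) ∧
  ∀ j : ℕ, Tendsto (fun t => t ^ j * iteratedDeriv j f t / f t) atTop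
    (𝓝 (∏ i ∈ range j, (c - i)))

/-- the record length `R(x) = log x (log₂ x) ^ 2 log₄ x / (log₃ x) ^ 2` -/
noncomputable def R (x : ℝ) : ℝ :=
  Real.log x * (Real.log (Real.log x)) ^ 2 * Real.log (Real.log (Real.log (Real.log x))) /
    (Real.log (Real.log (Real.log x))) ^ 2

/-- the admissible pairs: a distance `A` and a set of shifts `K` -/
def Admissible (κ : ℝ) (B : ℕ) (Z : ℝ) (A : ℕ) (K : Finset ℤ) : Prop :=
  ((∀ h ∈ K, |(h : ℝ)| ≤ (Real.log Z) ^ B) ∧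
    (A : ℝ) * K.card ≤ κ * Real.log Z * Real.log (Real.log Z)) ∨
  ∃ H : ℕ, K = Ico (0 : ℤ) H ∧ (H : ℝ) ^ 2 ≤ κ * Real.log Z ∧
    ((A : ℝ) ≤ κ * Real.log Z ∨ (A : ℝ) * H ≤ κ * R Z)

/-- no prime lies within `A` of `m` -/
def Isolated (A : ℕ) (m : ℤ) : Prop := ∀ q : ℕ, q.Prime → (A : ℤ) < |(q : ℤ) - m|

lemma sv {c : ℝ} {f : ℝ → ℝ} (hf : SmoothlyVarying c f) :
    Pool.Agent.N542.PP.SV c (fun k => iteratedDeriv k f) := by
  refine ⟨?_, ?_, ?_⟩
  · simpa only [iteratedDeriv_zero] using hf.1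
  · intro k
    filter_upwards [hf.2.1 k] with t ht
    rw [iteratedDeriv_succ]
    exact ht.hasDerivAt
  · intro k
    have h1 := hf.2.2 k
    rw [Pool.Agent.N542.PP.fall]
    simpa only [iteratedDeriv_zero] using h1

/-- The main theorem. -/
theorem result {r n : ℕ} (hn : 1 ≤ n)
    (c u : Fin r → ℝ) (f : Fin r → ℝ → ℝ) (hcn : ∀ j, ∀ n : ℕ, c j ≠ n)
    (hf : ∀ j, SmoothlyVarying (c j) (f j))
    (φ : Fin n → Fin r) (σ : Fin n → ℤ) (hφσ : ∀ k l, φ k = φ l → σ k = σ l → k = l)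
    (hφ : ∀ j, ((univ.filter (fun k => φ k = j)).card : ℝ) < c j + u j + 1)
    (hv : (∀ i j, i ≠ j → ∀ m : ℤ, (c i + u i) - (c j + u j) ≠ m) ∨
      (Function.Injective φ ∧ ∀ i j, i ≠ j → c i + u i ≠ c j + u j))
    (B D d b : ℕ) (hd : 0 < d) (hb : b.Coprime d) (ε : ℝ) (hε : 0 < ε) (hε1 : ε ≤ 1 / 2) :
    ∃ κ δ : ℝ, 0 < κ ∧ 0 < δ ∧ ∀ᶠ Z : ℝ in atTop, ∀ (A : ℕ) (K : Finset ℤ),
      Admissible κ B Z A K →
      ∀ (α : Fin r → ℝ) (P : Fin n → Polynomial ℝ),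
      (∀ j, Z ^ (u j - δ) ≤ |α j| ∧ |α j| ≤ Z ^ (u j + δ)) → (∀ k, (P k).natDegree ≤ D) →
      ∃ G : Finset ℕ, Z ^ (1 - ε) ≤ (G.card : ℝ) ∧ ∀ p ∈ G, p.Prime ∧ p ≡ b [MOD d] ∧
        Z < p ∧ (p : ℝ) ≤ (1 + ε) * Z ∧
        ∀ k, ∀ h ∈ K, ∀ m : ℤ,
          m = ⌊α (φ k) * f (φ k) ((p : ℝ) + σ k) + (P k).eval (p : ℝ)⌋ + h →
          Z ^ ε < |(m : ℝ)| → Isolated A (m ^ 2) := by
  have h := Pool.Agent.N542.PV.isolated hn c u (fun j k => iteratedDeriv k (f j))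
    (fun j => sv (hf j)) hcn φ σ hφσ hφ hv B D d b hd hb ε hε hε1
  simp only [iteratedDeriv_zero] at h
  obtain ⟨κ, δ, hκ, hδ, h⟩ := h
  refine ⟨κ, δ, hκ, hδ, ?_⟩
  filter_upwards [h] with Z h
  intro A K hA α P hα hP
  obtain ⟨G, hG1, hG2⟩ := h A K hA α P hα hP
  refine ⟨G, hG1, ?_⟩
  intro p hp
  obtain ⟨h1, h2, h3, h4, h5⟩ := hG2 p hp
  refine ⟨h1, h2, h3, h4, ?_⟩
  intro k h hh m hm hm2
  rw [hm] at hm2 ⊢
  exact h5 k h hh hm2

/-- No primes near the squares of the integers near the values of the functions. -/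
theorem no_primes {r n : ℕ} (hn : 1 ≤ n)
    (c : Fin r → ℝ) (f : Fin r → ℝ → ℝ) (hc : ∀ j, 0 < c j) (hcn : ∀ j, ∀ n : ℕ, c j ≠ n)
    (hf : ∀ j, SmoothlyVarying (c j) (f j))
    (φ : Fin n → Fin r) (σ : Fin n → ℤ) (hφσ : ∀ k l, φ k = φ l → σ k = σ l → k = l)
    (hφ : ∀ j, ((univ.filter (fun k => φ k = j)).card : ℝ) < c j + 1)
    (hv : (∀ i j, i ≠ j → ∀ m : ℤ, c i - c j ≠ m) ∨
      (Function.Injective φ ∧ ∀ i j, i ≠ j → c i ≠ c j))
    (B d b : ℕ) (hd : 0 < d) (hb : b.Coprime d) (ε : ℝ) (hε : 0 < ε) (hε1 : ε ≤ 1 / 2) :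
    ∃ κ : ℝ, 0 < κ ∧ ∀ᶠ Z : ℝ in atTop, ∀ (A : ℕ) (K : Finset ℤ), Admissible κ B Z A K →
      ∃ G : Finset ℕ, Z ^ (1 - ε) ≤ (G.card : ℝ) ∧ ∀ p ∈ G, p.Prime ∧ p ≡ b [MOD d] ∧
        Z < p ∧ (p : ℝ) ≤ (1 + ε) * Z ∧
        ∀ k, ∀ h ∈ K, Isolated A ((⌊f (φ k) ((p : ℝ) + σ k)⌋ + h) ^ 2) := by
  have h := Pool.Agent.N542.PV.gaps hn c (fun j k => iteratedDeriv k (f j))
    (fun j => sv (hf j)) hcn hc φ σ hφσ hφ hv B d b hd hb ε hε hε1
  simp only [iteratedDeriv_zero] at h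
  exact h

/-- The distance from the squares to the next primes: `a(n_k) > κ R(Z)` for all `k`, where
`n_k = ⌊f_{φ(k)}(p + σ(k))⌋`, for at least `Z ^ (1 - ε)` primes `p`. -/
theorem next_prime {r n : ℕ} (hn : 1 ≤ n)
    (c : Fin r → ℝ) (f : Fin r → ℝ → ℝ) (hc : ∀ j, 0 < c j) (hcn : ∀ j, ∀ n : ℕ, c j ≠ n)
    (hf : ∀ j, SmoothlyVarying (c j) (f j))
    (φ : Fin n → Fin r) (σ : Fin n → ℤ) (hφσ : ∀ k l, φ k = φ l → σ k = σ l → k = l)
    (hφ : ∀ j, ((univ.filter (fun k => φ k = j)).card : ℝ) < c j + 1)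
    (hv : (∀ i j, i ≠ j → ∀ m : ℤ, c i - c j ≠ m) ∨
      (Function.Injective φ ∧ ∀ i j, i ≠ j → c i ≠ c j))
    (d b : ℕ) (hd : 0 < d) (hb : b.Coprime d) (ε : ℝ) (hε : 0 < ε) (hε1 : ε ≤ 1 / 2) :
    ∃ κ : ℝ, 0 < κ ∧ ∀ᶠ Z : ℝ in atTop,
      ∃ G : Finset ℕ, Z ^ (1 - ε) ≤ (G.card : ℝ) ∧ ∀ p ∈ G, p.Prime ∧ p ≡ b [MOD d] ∧
        Z < p ∧ (p : ℝ) ≤ (1 + ε) * Z ∧
        ∀ k, ∀ q : ℕ, q.Prime → ⌊f (φ k) ((p : ℝ) + σ k)⌋₊ ^ 2 < q →
          κ * R Z < (q : ℝ) - (⌊f (φ k) ((p : ℝ) + σ k)⌋₊ : ℝ) ^ 2 := by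
  obtain ⟨κ, hκ, h⟩ := no_primes hn c f hc hcn hf φ σ hφσ hφ hv 0 d b hd hb ε hε hε1
  refine ⟨κ, hκ, ?_⟩
  have t1 : Tendsto Real.log atTop atTop := Real.tendsto_log_atTop
  have hpos : ∀ᶠ Z : ℝ in atTop, ∀ k, ∀ t : ℝ, Z < t → 0 < f (φ k) (t + σ k) := by
    refine eventually_all.2 fun k => ?_
    obtain ⟨T, hT⟩ := eventually_atTop.1 (hf (φ k)).1
    filter_upwards [eventually_ge_atTop (T - σ k)] with Z hZ t ht
    exact hT _ (by linarith)
  filter_upwards [h, hpos, t1.eventually_ge_atTop (1 / κ), Pool.Agent.N542.PV.ev_ff]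
    with Z h hpos hZ hff
  have hR : 0 ≤ R Z := hff.2.2.2.1
  rw [div_le_iff₀ hκ] at hZ
  obtain ⟨G, hG1, hG2⟩ := h ⌊κ * R Z⌋₊ (Ico (0 : ℤ) (1 : ℕ)) (Or.inr ⟨1, rfl, by
      rw [Nat.cast_one, one_pow]; linarith, Or.inr (by
      rw [Nat.cast_one, mul_one]; exact Nat.floor_le (by positivity))⟩)
  refine ⟨G, hG1, ?_⟩
  intro p hp
  obtain ⟨h1, h2, h3, h4, h5⟩ := hG2 p hp
  refine ⟨h1, h2, h3, h4, ?_⟩
  intro k q hq hq2
  have h6 := h5 k 0 (by simp) q hq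
  have h7 : (⌊f (φ k) ((p : ℝ) + σ k)⌋ : ℤ) = (⌊f (φ k) ((p : ℝ) + σ k)⌋₊ : ℤ) :=
    (Int.natCast_floor_eq_floor (hpos k p h3).le).symm
  rw [h7, add_zero] at h6
  have h8 : ((⌊f (φ k) ((p : ℝ) + σ k)⌋₊ : ℤ)) ^ 2 < (q : ℤ) := by exact_mod_cast hq2
  rw [abs_of_pos (by linarith)] at h6
  have h9 : ((⌊κ * R Z⌋₊ : ℕ) : ℝ) + 1 ≤ (q : ℝ) - (⌊f (φ k) ((p : ℝ) + σ k)⌋₊ : ℝ) ^ 2 := by
    have h10 : ((⌊κ * R Z⌋₊ : ℕ) : ℤ) + 1 ≤ (q : ℤ) - (⌊f (φ k) ((p : ℝ) + σ k)⌋₊ : ℤ) ^ 2 := by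
      omega
    exact_mod_cast h10
  have h11 := Nat.lt_floor_add_one (κ * R Z)
  linarith

/-- `t ^ c` plus a combination of lower real powers is smoothly varying with index `c`. -/
theorem smoothlyVarying_genPoly (c : ℝ) (n : ℕ) (a b : Fin n → ℝ) (hb : ∀ i, b i < c) :
    SmoothlyVarying c (fun t => t ^ c + ∑ i, a i * t ^ b i) :=
  Pool.Agent.N542.PB.genPoly_sv c n a b hb

end Pool.Agent.Results.MP_36c81c_nt.SquaresOfSmoothValues
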